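import Pool.Agent.Helper70.EC.St

/-!
# Project EC, module MAIN: lower bound for the number of solutions, averaged functions
-/

set_option autoImplicit false

namespace Pool.Agent.Helper72.EC

open Finset
open Pool.Agent.Helper70.EC
open Pool.Agent.Helper1.PFS (G uu mm cor inf')

variable {p : ℕ} [Fact p.Prime]

/-- the mean value of `f` on a line of the coset -/
noncomputable def phi (x y : Pt p) (f : G p → ℝ) (c : (ZMod p)ˣ) : ℝ :=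
  (1 / (p : ℝ)) * ∑ s : ZMod p, f (bp x y c s)

theorem av_nonneg (x y : Pt p) (f : G p → ℝ) (hf : ∀ g, 0 ≤ f g) (g : G p) : 0 ≤ av x y f g := by
  classical
  unfold av
  split_ifs
  · exact mul_nonneg (by positivity) (Finset.sum_nonneg fun s _ => hf _)
  · exact le_rfl

theorem av_bp (hBP : StBP) (x y : Pt p) (f : G p → ℝ) (c : (ZMod p)ˣ) (s : ZMod p) :
    av x y f (bp x y c s) = phi x y f c := by
  classical
  obtain ⟨h1, -, -, h4, -, -⟩ := hBP p x y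
  have hg : bp x y c s • x = y := (h1 _).2 ⟨c, s, rfl⟩
  unfold av phi
  rw [if_pos hg]
  congr 1
  simp_rw [h4]
  exact Fintype.sum_equiv (Equiv.addLeft s) _ _ (fun _ => rfl)

theorem sum_eq (hBP : StBP) (x y : Pt p) (f : G p → ℝ) (hf : Supp x y f) :
    ∑ g, f g = p * ∑ c, phi x y f c := by
  obtain ⟨-, -, -, -, h5, -⟩ := hBP p x y
  rw [h5 f hf, Finset.mul_sum]
  refine Finset.sum_congr rfl fun c _ => ?_
  unfold phi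
  have hp : (p : ℝ) ≠ 0 := by exact_mod_cast (Fact.out : p.Prime).ne_zero
  field_simp

theorem key (hBP : StBP) (hEX : StEX) (x₁ y₁ x₂ y₂ x₃ y₃ : Pt p) (h1 : x₁ ≠ y₂) (h2 : x₂ ≠ x₃)
    (h3 : y₁ ≠ y₃) (f₁ f₂ f₃ : G p → ℝ) (hs₁ : Supp x₁ y₁ f₁) (hs₂ : Supp x₂ y₂ f₂)
    (hs₃ : Supp x₃ y₃ f₃) (n₁ : ∀ g, 0 ≤ f₁ g) (n₂ : ∀ g, 0 ≤ f₂ g) (n₃ : ∀ g, 0 ≤ f₃ g) :
    (∑ g, f₁ g) * (∑ g, f₂ g) * (∑ g, f₃ g) ≤
      (p : ℝ) ^ 3 * TT (av x₁ y₁ f₁) (av x₂ y₂ f₂) (av x₃ y₃ f₃) := by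
  classical
  choose s₁ s₂ s₃ hs using hEX p x₁ y₁ x₂ y₂ x₃ y₃ h1 h2 h3
  let ι : (ZMod p)ˣ × (ZMod p)ˣ × (ZMod p)ˣ → G p × G p := fun t =>
    (bp x₁ y₁ t.1 (s₁ t.1 t.2.1 t.2.2), bp x₂ y₂ t.2.1 (s₂ t.1 t.2.1 t.2.2))
  have hι : Function.Injective ι := by
    intro t t' h
    have ha : bp x₁ y₁ t.1 (s₁ t.1 t.2.1 t.2.2) = bp x₁ y₁ t'.1 (s₁ t'.1 t'.2.1 t'.2.2) :=
      congrArg Prod.fst h
    have hb : bp x₂ y₂ t.2.1 (s₂ t.1 t.2.1 t.2.2) = bp x₂ y₂ t'.2.1 (s₂ t'.1 t'.2.1 t'.2.2) :=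
      congrArg Prod.snd h
    have e1 := ((hBP p x₁ y₁).2.1 _ _ _ _ ha).1
    have e2 := ((hBP p x₂ y₂).2.1 _ _ _ _ hb).1
    have e3 := hs t.1 t.2.1 t.2.2
    have e3' := hs t'.1 t'.2.1 t'.2.2
    rw [ha, hb, e3'] at e3
    have e4 := ((hBP p x₃ y₃).2.1 _ _ _ _ e3).1
    exact Prod.ext e1 (Prod.ext e2 e4.symm)
  let H : G p × G p → ℝ := fun q => av x₁ y₁ f₁ q.1 * av x₂ y₂ f₂ q.2 * av x₃ y₃ f₃ (q.1 * q.2)
  have hH : ∀ q, 0 ≤ H q := fun q =>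
    mul_nonneg (mul_nonneg (av_nonneg _ _ _ n₁ _) (av_nonneg _ _ _ n₂ _)) (av_nonneg _ _ _ n₃ _)
  have hTT : TT (av x₁ y₁ f₁) (av x₂ y₂ f₂) (av x₃ y₃ f₃) = ∑ q, H q := by
    unfold TT
    rw [Fintype.sum_prod_type]
  have hval : ∀ t, H (ι t) = phi x₁ y₁ f₁ t.1 * phi x₂ y₂ f₂ t.2.1 * phi x₃ y₃ f₃ t.2.2 := by
    intro t
    show av x₁ y₁ f₁ (bp x₁ y₁ t.1 (s₁ t.1 t.2.1 t.2.2)) *
      av x₂ y₂ f₂ (bp x₂ y₂ t.2.1 (s₂ t.1 t.2.1 t.2.2)) *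
      av x₃ y₃ f₃ (bp x₁ y₁ t.1 (s₁ t.1 t.2.1 t.2.2) * bp x₂ y₂ t.2.1 (s₂ t.1 t.2.1 t.2.2)) = _
    rw [hs, av_bp hBP, av_bp hBP, av_bp hBP]
  have hsum : ∑ t, H (ι t) ≤ ∑ q, H q := by
    have h := Finset.sum_map Finset.univ ⟨ι, hι⟩ H
    have h' : ∑ t, H (ι t) = ∑ q ∈ Finset.map ⟨ι, hι⟩ Finset.univ, H q := h.symm
    rw [h']
    exact Finset.sum_le_univ_sum_of_nonneg hH
  have hprod : ∑ t, H (ι t) =
      (∑ c, phi x₁ y₁ f₁ c) * (∑ c, phi x₂ y₂ f₂ c) * (∑ c, phi x₃ y₃ f₃ c) := by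
    simp_rw [hval]
    rw [Fintype.sum_prod_type, Finset.sum_mul_sum, Finset.sum_mul]
    refine Finset.sum_congr rfl fun a _ => ?_
    rw [Fintype.sum_prod_type, Finset.sum_mul]
    refine Finset.sum_congr rfl fun b _ => ?_
    rw [Finset.mul_sum]
  rw [sum_eq hBP _ _ _ hs₁, sum_eq hBP _ _ _ hs₂, sum_eq hBP _ _ _ hs₃, hTT]
  have hp : (0 : ℝ) ≤ (p : ℝ) ^ 3 := by positivity
  have h := mul_le_mul_of_nonneg_left hsum hp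
  rw [hprod] at h
  calc _ = (p : ℝ) ^ 3 * ((∑ c, phi x₁ y₁ f₁ c) * (∑ c, phi x₂ y₂ f₂ c) *
        (∑ c, phi x₃ y₃ f₃ c)) := by ring
    _ ≤ _ := h

theorem TT_sum1 {ι : Type*} (E : Finset ι) (F : ι → G p → ℝ) (v w : G p → ℝ) :
    TT (fun g => ∑ e ∈ E, F e g) v w = ∑ e ∈ E, TT (F e) v w := by
  unfold TT
  rw [Finset.sum_comm (s := E)]
  refine Finset.sum_congr rfl fun a _ => ?_
  rw [Finset.sum_comm (s := E)]
  refine Finset.sum_congr rfl fun b _ => ?_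
  rw [Finset.sum_mul, Finset.sum_mul]

theorem TT_sum2 {ι : Type*} (E : Finset ι) (F : ι → G p → ℝ) (v w : G p → ℝ) :
    TT v (fun g => ∑ e ∈ E, F e g) w = ∑ e ∈ E, TT v (F e) w := by
  unfold TT
  rw [Finset.sum_comm (s := E)]
  refine Finset.sum_congr rfl fun a _ => ?_
  rw [Finset.sum_comm (s := E)]
  refine Finset.sum_congr rfl fun b _ => ?_
  rw [Finset.mul_sum, Finset.sum_mul]

theorem TT_sum3 {ι : Type*} (E : Finset ι) (F : ι → G p → ℝ) (v w : G p → ℝ) :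
    TT v w (fun g => ∑ e ∈ E, F e g) = ∑ e ∈ E, TT v w (F e) := by
  unfold TT
  rw [Finset.sum_comm (s := E)]
  refine Finset.sum_congr rfl fun a _ => ?_
  rw [Finset.sum_comm (s := E)]
  refine Finset.sum_congr rfl fun b _ => ?_
  rw [Finset.mul_sum]

theorem TT_nonneg (u v w : G p → ℝ) (hu : ∀ g, 0 ≤ u g) (hv : ∀ g, 0 ≤ v g) (hw : ∀ g, 0 ≤ w g) :
    0 ≤ TT u v w :=
  Finset.sum_nonneg fun _ _ => Finset.sum_nonneg fun _ _ => mul_nonneg (mul_nonneg (hu _) (hv _)) (hw _)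

/-- **MAIN.** -/
theorem hMAIN (hBP : StBP) (hEX : StEX) : StMAIN := by
  classical
  intro p _ E f hS hN
  rw [TT_sum1]
  rw [Finset.mul_sum]
  refine Finset.sum_le_sum fun e₁ h₁ => ?_
  rw [TT_sum2, Finset.mul_sum]
  refine Finset.sum_le_sum fun e₂ h₂ => ?_
  rw [TT_sum3]
  refine le_trans ?_ (le_of_eq (Finset.mul_sum _ _ _).symm)
  refine Finset.sum_le_sum fun e₃ h₃ => ?_
  split_ifs with hc
  · exact key hBP hEX e₁.1 e₁.2 e₂.1 e₂.2 e₃.1 e₃.2 hc.1 hc.2.1 hc.2.2 _ _ _ (hS e₁ h₁) (hS e₂ h₂)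
      (hS e₃ h₃) (hN e₁ h₁) (hN e₂ h₂) (hN e₃ h₃)
  · exact mul_nonneg (by positivity) (TT_nonneg _ _ _ (av_nonneg _ _ _ (hN e₁ h₁))
      (av_nonneg _ _ _ (hN e₂ h₂)) (av_nonneg _ _ _ (hN e₃ h₃)))

end Pool.Agent.Helper72.EC
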